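import Pool.Agent.H6.Halin

namespace Pool.Agent.Results.MP_fbe6c8_co.Q1
open Pool.Agent.H6.Halin

theorem result (t : BT) (h : 3 ≤ t.leaves) : ∃ f : Option t.Pos → Finset (Fin 6),
    (∀ v, (f v).card = 2) ∧ ∀ u v, u ≠ v → ((f u ∩ f v).card : ℕ∞) < t.halin.edist u v := by
  obtain ⟨f, hf⟩ := main t h
  let g : ℕ → Finset (Fin 6) := fun c => {i | (m c).testBit i}
  have d : ∀ x < 15, (g x).card = 2 ∧ ∀ y < 15, (g x ∩ g y).card ≤ 2 ∧
      (x ≠ y → (g x ∩ g y).card ≤ 1) ∧ (dis x y → (g x ∩ g y).card = 0) := by decide +kernel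
  have lt : ∀ v, f v < 15 := fun v => by
    obtain ⟨a, b, c, q, -⟩ := hf v
    exact q.1.1
  refine ⟨fun v => g (f v), fun v => (d _ (lt v)).1, fun u v n => ?_⟩
  obtain ⟨d2, d1, d0⟩ := (d _ (lt u)).2 _ (lt v)
  by_contra! q
  obtain ⟨p, hp⟩ := SimpleGraph.exists_walk_of_edist_ne_top
    (q.trans_lt (ENat.coe_lt_top _)).ne
  rw [← hp, Nat.cast_le] at q
  match p, q with
  | .nil, _ => exact n rfl
  | .cons a .nil, q =>
    obtain ⟨x, y, z, k, r⟩ := hf u
    have : dis (f u) (f v) := by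
      rcases r v a with rfl | rfl | rfl
      exacts [k.1, k.2.1, k.2.2.1]
    simp [d0 this] at q
  | .cons (v := w) a (.cons b .nil), q =>
    obtain ⟨x, y, z, ⟨-, -, -, k⟩, r⟩ := hf w
    have : f u ≠ f v := by
      have := r u a.symm
      have := r v b
      grind
    have := d1 this
    simp at q
    omega
  | .cons _ (.cons _ (.cons _ _)), q =>
    simp at q
    omega

end Pool.Agent.Results.MP_fbe6c8_co.Q1
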